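import Pool.Agent.ATB.Stmts3
import Pool.Agent.Helper63_ATB.VAN

set_option autoImplicit false

/-!
# Squad ATB, row VAN2: the refined vanishing theorem (adapted from helper63's VAN)
-/

namespace Pool.Agent.ATB.H95

open scoped TensorProduct
open Module
open Pool.Agent.ATB.H63

theorem bet_zero (p : ℕ) {g j : ℤ} (h : j ≤ g) : bet p g j = 0 := by
  rw [bet, if_pos h]

theorem bet_nonneg (p : ℕ) (g j : ℤ) (hg : 0 ≤ g) : 0 ≤ bet p g j := by
  unfold bet
  split_ifs with h1 h2
  · exact le_rfl
  · omega
  · have : (0 : ℤ) ≤ p * (j - 2 * g) := mul_nonneg (Int.natCast_nonneg _) (by omega)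
    omega

/-- one dimension down, one degree down -/
theorem bet_down1 (p : ℕ) (hp : 1 ≤ p) {g j t : ℤ} (ht : 1 ≤ t) (hg : t ≤ g) :
    bet p g j ≤ bet p (g - t) (j - 1) := by
  have hp' : (1 : ℤ) ≤ p := by exact_mod_cast hp
  unfold bet
  split_ifs with h1 h2 h3 h4 h5 h6 h7 h8
  all_goals first
    | omega
    | nlinarith

theorem bet_down2 (p : ℕ) (hp : 1 ≤ p) {g j t : ℤ} (ht : 1 ≤ t) (hg : t ≤ g) :
    bet p g j ≤ 1 + bet p (g - t) (j - 2) := by
  have hp' : (1 : ℤ) ≤ p := by exact_mod_cast hp
  unfold bet
  split_ifs with h1 h2 h3 h4 h5 h6 h7 h8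
  all_goals first
    | omega
    | nlinarith

theorem bet_step (p : ℕ) (hp : 1 ≤ p) {g j : ℤ} (hg : 0 ≤ g) :
    bet p g j ≤ p + bet p g (j - 1) := by
  have hp' : (1 : ℤ) ≤ p := by exact_mod_cast hp
  unfold bet
  split_ifs with h1 h2 h3 h4 h5 h6 h7 h8
  all_goals first
    | omega
    | nlinarith

theorem van2 (chn : CHNStmt) (sge : SGEStmt) (sgi : SGIStmt) (sgx : SGXStmt) (omc : OMCStmt)
    (lpw : LPWStmt) (clo : CLOStmt) : VAN2Stmt := by
  intro p hp K _ _ n
  have hpn : 1 ≤ p := hp.out.one_le
  have hp1 : (1 : ℤ) ≤ p := by exact_mod_cast hpn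
  suffices h : ∀ w : ℕ, ∀ (W : Submodule K (Fin n → K)) (Z : Multiset (Fin n → K)) (k m : ℤ),
      finrank K W = w → (∀ z ∈ Z, z ∈ W) → HYP2 p W Z k m → ExactAt (Om k Z) m ∧ ExactAt (Cc k Z W) m from
    fun W Z k m => h _ W Z k m rfl
  intro w
  induction w using Nat.strong_induction_on with
  | _ w ih =>
  intro W Z k m hw hZ hyp
  by_cases hm0 : m < 0
  · exact ⟨exactAt_bot (Om_bot fun B D _ _ => Lpow_neg _ hm0),
      exactAt_bot (OmH_bot fun B D _ _ _ => Lpow_neg _ hm0)⟩
  have hlpw := (lpw K n).2.2.2
  by_cases hmw : (w : ℤ) < m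
  · refine ⟨exactAt_bot (Om_bot fun B D hBD _ => hlpw _ _ (lt_of_le_of_lt ?_ hmw)),
      exactAt_bot (OmH_bot fun B D _ _ _ => hlpw _ _ (by rw [hw]; exact hmw))⟩
    have : sp B ≤ W := sp_le.2 fun z hz => hZ z (hBD ▸ Multiset.mem_add.2 (Or.inl hz))
    have := Submodule.finrank_mono this
    rw [hw] at this
    exact_mod_cast this
  push Not at hm0 hmw
  have hypW := hyp (by rw [hw]; exact hmw)
  rw [hw] at hypW
  -- the subspaces of smaller dimension
  have key : ∀ (H : Submodule K (Fin n → K)) (j e : ℤ), H < W →
      (∀ g t : ℤ, 1 ≤ t → t ≤ g → bet p g m ≤ j + bet p (g - t) (m - e)) →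
      ExactAt (Cc (k + j) Z H) (m - e) := by
    intro H j e hH hb
    have hh : finrank K H < w := hw ▸ Submodule.finrank_lt_finrank_of_lt hH
    have h := (ih (finrank K H) hh H (ins Z H) (k + j) (m - e) rfl (fun z hz => (mem_ins.1 hz).2) ?_).2
    · rwa [Cc_ins] at h
    intro _ F hF
    have hF' := hypW F (hF.trans hH.le)
    rw [ins_ins hF]
    have hh' : ((finrank K H : ℕ) : ℤ) + 1 ≤ w := by exact_mod_cast hh
    have hFH : ((finrank K F : ℕ) : ℤ) ≤ finrank K H := by exact_mod_cast Submodule.finrank_mono hF
    have hb' := hb ((w : ℤ) - finrank K F) ((w : ℤ) - finrank K H) (by linarith) (by linarith)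
    have e1 : (w : ℤ) - finrank K F - ((w : ℤ) - finrank K H) = finrank K H - finrank K F := by ring
    rw [e1] at hb'
    linarith
  have hOm : ExactAt (Om k Z) m := by
    rcases Nat.eq_zero_or_pos w with hw0 | hwpos
    · subst hw0
      have hW : W = ⊥ := Submodule.finrank_eq_zero.1 hw
      refine exactAt_bot (Om_bot fun B D hBD hB => ?_)
      exfalso
      have h := hypW W le_rfl
      have hm : m = 0 := le_antisymm (by exact_mod_cast hmw) hm0
      rw [ins_eq_self hZ, hw, bet_zero p (by rw [hm]; simp)] at h
      have hcard : (B.card : ℤ) ≤ Z.card := by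
        rw [← hBD, Multiset.card_add]
        push_cast
        linarith [Int.natCast_nonneg D.card]
      subst hm
      push_cast at h
      linarith
    · have hWb : W ≠ ⊥ := by
        rintro rfl
        rw [finrank_bot] at hw
        omega
      obtain ⟨c, hcW, hc0⟩ := Submodule.exists_mem_ne_zero_of_ne_bot hWb
      obtain ⟨P, hP⟩ := exists_fun' hc0
      refine chn K n k Z c m ?_ (Z.card + 1) ?_
      · intro j H hcH
        by_cases hHW : H ≤ W
        · have hlt : H < W := lt_of_le_of_ne hHW (fun h => hcH (h ▸ hcW))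
          have hj0 : (0 : ℤ) ≤ j := Int.natCast_nonneg _
          have h1 := key H (1 + j) 1 hlt (fun g t ht hg => by
            have := bet_down1 p hpn (j := m) ht hg
            linarith)
          have h2 := key H (1 + j) 2 hlt (fun g t ht hg => by
            have := bet_down2 p hpn (j := m) ht hg
            linarith)
          rw [← add_assoc] at h1 h2
          exact ⟨h1, h2⟩
        · have hb : ∀ i, Cc (k + 1 + j) Z H i = ⊥ := fun i =>
            (clo K n (k + 1 + j) (ins Z H)).2.2.2.2.2.2.2.2.1 H W i
              (fun z hz => hZ z (mem_ins.1 hz).1) hHW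
          exact ⟨exactAt_bot (hb _), exactAt_bot (hb _)⟩
      · have hk : 0 ≤ k := by
          have h := hypW ⊥ bot_le
          rw [finrank_bot, bet_zero p (by push_cast; linarith)] at h
          have h3 := Int.natCast_nonneg (ins Z (⊥ : Submodule K (Fin n → K))).card
          linarith
        have e1 : Om (k + ((Z.card + 1 : ℕ) : ℤ)) (Multiset.replicate (Z.card + 1) c + Z) = Sig k Z c := by
          funext i
          exact sge K n k Z c i (Z.card + 1) hk (Nat.lt_succ_self _)
        rw [e1]
        set Z' := Z.map (fun z => z - P z • c) with hZ'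
        have e2 : Sig k Z' c = Sig k Z c := by
          funext i
          refine sgi K n k Z c i _ fun z _ => ?_
          have : z - P z • c - z = (- P z) • c := by
            rw [neg_smul]
            abel
          rw [this]
          exact Submodule.smul_mem _ _ (Submodule.mem_span_singleton_self c)
        rw [← e2]
        have hZ'P : ∀ z ∈ Z', P z = 0 := by
          intro z hz
          obtain ⟨y, _, rfl⟩ := Multiset.mem_map.1 hz
          rw [map_sub, map_smul, hP, smul_eq_mul, mul_one, sub_self]
        set W' : Submodule K (Fin n → K) := W ⊓ LinearMap.ker P with hW'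
        have hZ'W : ∀ z ∈ Z', z ∈ W' := by
          intro z hz
          refine ⟨?_, hZ'P z hz⟩
          obtain ⟨y, hy, rfl⟩ := Multiset.mem_map.1 hz
          exact W.sub_mem (hZ y hy) (W.smul_mem _ hcW)
        have hW'P : ∀ v ∈ W', P v = 0 := fun v hv => hv.2
        have hcW' : c ∉ W' := fun h => by
          have := hW'P c h
          rw [hP] at this
          exact one_ne_zero this
        have hWs : W' ⊔ Submodule.span K {c} = W := by
          apply le_antisymm
          · exact sup_le inf_le_left ((Submodule.span_singleton_le_iff_mem _ _).2 hcW)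
          · intro v hv
            have h : v = (v - P v • c) + P v • c := by abel
            rw [h]
            refine Submodule.add_mem_sup ⟨W.sub_mem hv (W.smul_mem _ hcW), ?_⟩
              (Submodule.smul_mem _ _ (Submodule.mem_span_singleton_self c))
            change P (v - P v • c) = 0
            rw [map_sub, map_smul, hP, smul_eq_mul, mul_one, sub_self]
        have hw' : finrank K W' + 1 = w := by
          rw [← finrank_sup_span' hcW', hWs, hw]
        have key2 : ∀ (l e : ℤ), (∀ g : ℤ, 0 ≤ g → bet p g m ≤ l + bet p g (m - e)) →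
            ExactAt (Om (k + l) Z') (m - e) := by
          intro l e hb
          refine (ih (finrank K W') (by omega) W' Z' (k + l) (m - e) rfl hZ'W ?_).1
          intro _ F hF
          have hcF : c ∉ F := fun h => hcW' (hF h)
          have hF' := hypW (F ⊔ Submodule.span K {c}) (hWs ▸ sup_le_sup_right hF _)
          rw [← ins_card_map hP (fun v hv => hW'P v (hF hv)), finrank_sup_span' hcF] at hF'
          have hw'' : (w : ℤ) = finrank K W' + 1 := by exact_mod_cast hw'.symm
          have hFW : ((finrank K F : ℕ) : ℤ) ≤ finrank K W' := by exact_mod_cast Submodule.finrank_mono hF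
          have hb' := hb ((finrank K W' : ℤ) - finrank K F) (by linarith)
          have e3 : (w : ℤ) - ((finrank K F + 1 : ℕ) : ℤ) = finrank K W' - finrank K F := by
            rw [hw'']
            push_cast
            ring
          rw [e3] at hF'
          linarith
        refine sgx p K n k Z' c m P hP hZ'P ?_ ?_
        · have h := key2 0 0 (fun g _ => by simp)
          rwa [add_zero, sub_zero] at h
        · intro l hl
          have hl' : (p : ℤ) ≤ l := by exact_mod_cast hl
          have h1 := key2 l 0 (fun g _ => by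
            rw [sub_zero]
            linarith)
          have h2 := key2 l 1 (fun g hg => by
            have := bet_step p hpn (j := m) hg
            linarith)
          rw [sub_zero] at h1
          exact ⟨h1, h2⟩
  refine ⟨hOm, omc K n k Z W m hZ hOm fun H hH => ?_⟩
  have h := key H 0 1 hH (fun g t ht hg => by
    have := bet_down1 p hpn (j := m) ht hg
    linarith)
  rwa [add_zero] at h

end Pool.Agent.ATB.H95
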